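import Pool.Agent.Helper37.RT.Defs
import Pool.Agent.Helper47.ReconDefs
import Pool.Agent.Helper47.RQ.C0

/-!
Row T12: transfer from `ℝ × ℝ` to `Fin 2 → ℝ`, with row T11 as a hypothesis.
-/

namespace Pool.Agent.Helper37.RT

open MeasureTheory Set Filter Topology
open scoped ENNReal

/-- the set `r E + x` in the plane -/
lemma t12_set (E : Set (Fin 2 → ℝ)) {r : ℝ} (hr : 0 < r) (x z : Fin 2 → ℝ) :
    z ∈ (fun y => r • y + x) '' E ↔
      r⁻¹ • (MeasurableEquiv.finTwoArrow z - MeasurableEquiv.finTwoArrow x) ∈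
        (MeasurableEquiv.finTwoArrow (α := ℝ)).symm ⁻¹' E := by
  have h1 : (MeasurableEquiv.finTwoArrow (α := ℝ)).symm
      (r⁻¹ • (MeasurableEquiv.finTwoArrow z - MeasurableEquiv.finTwoArrow x)) = r⁻¹ • (z - x) := by
    apply (MeasurableEquiv.finTwoArrow (α := ℝ)).injective
    rw [MeasurableEquiv.apply_symm_apply]
    rfl
  rw [Set.mem_preimage, h1]
  constructor
  · rintro ⟨y, hy, rfl⟩
    simpa [smul_smul, inv_mul_cancel₀ hr.ne'] using hy
  · intro h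
    refine ⟨_, h, ?_⟩
    simp [smul_smul, mul_inv_cancel₀ hr.ne']

lemma t12_ff_meas {E₂ : Set (ℝ × ℝ)} (hE : MeasurableSet E₂) (r : ℝ) (x : ℝ × ℝ) :
    MeasurableSet {y : ℝ × ℝ | r⁻¹ • (y - x) ∈ E₂} := by
  have h : Measurable (fun y : ℝ × ℝ => r⁻¹ • (y - x)) := by fun_prop
  exact h hE

lemma t12_int {E₂ : Set (ℝ × ℝ)} (hE : MeasurableSet E₂) (r : ℝ) (x : ℝ × ℝ) {T : Set (ℝ × ℝ)}
    (hT : MeasurableSet T) :
    ∫ y, T.indicator (fun _ => (1 : ℝ)) y * ff E₂ r x y =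
      (volume (T ∩ {y : ℝ × ℝ | r⁻¹ • (y - x) ∈ E₂})).toReal := by
  have h1 : (fun y => T.indicator (fun _ => (1 : ℝ)) y * ff E₂ r x y) =
      (T ∩ {y : ℝ × ℝ | r⁻¹ • (y - x) ∈ E₂}).indicator (fun _ => (1 : ℝ)) := by
    ext y
    by_cases h1 : y ∈ T
    · by_cases h2 : r⁻¹ • (y - x) ∈ E₂
      · have h3 : y ∈ T ∩ {y : ℝ × ℝ | r⁻¹ • (y - x) ∈ E₂} := ⟨h1, h2⟩
        rw [Set.indicator_of_mem h1, Set.indicator_of_mem h3]
        simp [ff, h2]
      · have h3 : y ∉ T ∩ {y : ℝ × ℝ | r⁻¹ • (y - x) ∈ E₂} := fun h => h2 h.2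
        rw [Set.indicator_of_notMem h3]
        simp [ff, h2]
    · have h3 : y ∉ T ∩ {y : ℝ × ℝ | r⁻¹ • (y - x) ∈ E₂} := fun h => h1 h.1
      rw [Set.indicator_of_notMem h1, Set.indicator_of_notMem h3, zero_mul]
  rw [h1, integral_indicator (hT.inter (t12_ff_meas hE r x))]
  simp [Measure.real]

lemma t12_vol {E : Set (Fin 2 → ℝ)} {r : ℝ} (hr : 0 < r)
    (x : Fin 2 → ℝ) {T : Set (ℝ × ℝ)} :
    volume ((fun y => r • y + x) '' E ∩ MeasurableEquiv.finTwoArrow ⁻¹' T) =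
      volume (T ∩ {y : ℝ × ℝ | r⁻¹ • (y - MeasurableEquiv.finTwoArrow x) ∈
        (MeasurableEquiv.finTwoArrow (α := ℝ)).symm ⁻¹' E}) := by
  have h1 : (fun y => r • y + x) '' E ∩ MeasurableEquiv.finTwoArrow ⁻¹' T =
      (MeasurableEquiv.finTwoArrow (α := ℝ)) ⁻¹' (T ∩ {y : ℝ × ℝ |
        r⁻¹ • (y - MeasurableEquiv.finTwoArrow x) ∈
        (MeasurableEquiv.finTwoArrow (α := ℝ)).symm ⁻¹' E}) := by
    ext z
    rw [Set.mem_inter_iff, t12_set E hr x z]
    exact and_comm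
  rw [h1]
  exact (volume_preserving_finTwoArrow ℝ).measure_preimage_equiv _

/-- replacing a set by a measurable kernel -/
lemma t12_kernel {E E' : Set (Fin 2 → ℝ)} (hE'E : E' ⊆ E) (hnull : volume (E \ E') = 0) {r : ℝ}
    (hr : 0 < r) (z : Fin 2 → ℝ) (T : Set (Fin 2 → ℝ)) :
    volume ((fun y => r • y + z) '' E ∩ T) = volume ((fun y => r • y + z) '' E' ∩ T) := by
  refine le_antisymm ?_ (measure_mono (Set.inter_subset_inter_left _ (Set.image_mono hE'E)))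
  have hsub : (fun y => r • y + z) '' E ∩ T ⊆
      ((fun y => r • y + z) '' E' ∩ T) ∪ (fun y => r • y + z) '' (E \ E') := by
    rintro w ⟨⟨y, hy, rfl⟩, hw⟩
    by_cases hyE : y ∈ E'
    · exact Or.inl ⟨⟨y, hyE, rfl⟩, hw⟩
    · exact Or.inr ⟨y, ⟨hy, hyE⟩, rfl⟩
  refine (measure_mono hsub).trans ((measure_union_le _ _).trans ?_)
  rw [Pool.Agent.Helper37.RQ.c_vol_image _ hr, hnull, mul_zero, add_zero]

theorem reconstruct_two_of
    (h_global : ∀ {E : Set (ℝ × ℝ)} (_ : MeasurableSet E) (_ : Bornology.IsBounded E)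
      (_ : 0 < volume E),
      ∃ T : Fin 2 → Set (ℝ × ℝ), (∀ i, MeasurableSet (T i)) ∧ ∀ r : ℝ, 1 ≤ r → ∀ x x' : ℝ × ℝ,
        (∀ i, ∫ y, (T i).indicator (fun _ => (1 : ℝ)) y * ff E r x y
          = ∫ y, (T i).indicator (fun _ => (1 : ℝ)) y * ff E r x' y) → x = x')
    {E : Set (Fin 2 → ℝ)} (hE : NullMeasurableSet E volume)
    (hb : Bornology.IsBounded E) (hpos : 0 < volume E) :
    Pool.Agent.Helper47.Recon.CanReconstruct (Pool.Agent.Helper47.Recon.magnifiedCopies E) 3 := by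
  obtain ⟨E', hE'E, hE', hae⟩ := hE.exists_measurable_subset_ae_eq
  have hb' : Bornology.IsBounded E' := hb.subset hE'E
  have hpos' : 0 < volume E' := by rwa [measure_congr hae]
  have hfin : volume E ≠ ⊤ := hb.measure_lt_top.ne
  have hnull : volume (E \ E') = 0 := by
    have h1 := hae
    rw [ae_eq_set] at h1
    exact h1.2
  obtain ⟨E₂, hE₂d⟩ : ∃ E₂, E₂ = (MeasurableEquiv.finTwoArrow (α := ℝ)).symm ⁻¹' E' := ⟨_, rfl⟩
  have hE₂ : MeasurableSet E₂ := by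
    rw [hE₂d]
    exact (MeasurableEquiv.finTwoArrow (α := ℝ)).symm.measurable hE'
  have hE₂b : Bornology.IsBounded E₂ := by
    obtain ⟨C, hC⟩ := hb'.exists_norm_le
    refine isBounded_iff_forall_norm_le.2 ⟨C, fun y hy => ?_⟩
    rw [hE₂d, Set.mem_preimage] at hy
    have h1 := hC _ hy
    have h0 : (0 : ℝ) ≤ C := (norm_nonneg _).trans h1
    rw [pi_norm_le_iff_of_nonneg h0] at h1
    rw [Prod.norm_def]
    exact max_le (h1 0) (h1 1)
  have hE₂p : 0 < volume E₂ := by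
    have h1 : volume ((MeasurableEquiv.finTwoArrow (α := ℝ)) ⁻¹' E₂) = volume E₂ :=
      (volume_preserving_finTwoArrow ℝ).measure_preimage_equiv _
    rw [← h1, hE₂d, ← Set.preimage_comp, MeasurableEquiv.symm_comp_self, Set.preimage_id]
    exact hpos'
  obtain ⟨T, hT, hinj⟩ := h_global hE₂ hE₂b hE₂p
  refine ⟨Fin.cons univ (fun i : Fin 2 => MeasurableEquiv.finTwoArrow ⁻¹' T i), ?_, ?_⟩
  · intro i
    refine Fin.cases ?_ (fun j => ?_) i
    · simp
    · simpa using ((MeasurableEquiv.finTwoArrow (α := ℝ)).measurable (hT j)).nullMeasurableSet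
  · rintro A ⟨r, hr, x, rfl⟩ B ⟨r', hr', x', rfl⟩ hAB
    have hr0 : 0 < r := lt_of_lt_of_le one_pos hr
    have hr0' : 0 < r' := lt_of_lt_of_le one_pos hr'
    have h0 := hAB 0
    simp only [Fin.cons_zero, Set.inter_univ] at h0
    rw [Pool.Agent.Helper37.RQ.c_vol_image _ hr0, Pool.Agent.Helper37.RQ.c_vol_image _ hr0',
      ENNReal.mul_left_inj hpos.ne' hfin,
      ENNReal.ofReal_eq_ofReal_iff (by positivity) (by positivity)] at h0
    have hrr : r = r' := (pow_left_inj₀ hr0.le hr0'.le (by norm_num)).1 h0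
    subst hrr
    have hx : x = x' := by
      apply (MeasurableEquiv.finTwoArrow (α := ℝ)).injective
      refine hinj r hr _ _ fun i => ?_
      have hi := hAB i.succ
      simp only [Fin.cons_succ] at hi
      rw [t12_kernel hE'E hnull hr0, t12_kernel hE'E hnull hr0, t12_vol hr0, t12_vol hr0,
        ← hE₂d] at hi
      rw [t12_int hE₂ r _ (hT i), t12_int hE₂ r _ (hT i), hi]
    rw [hx]

end Pool.Agent.Helper37.RT
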