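import Pool.Agent.Helper37.RT.Defs
import Pool.Agent.Helper61.RT.T2
import Pool.Agent.Helper76.RT.T4

/-!
Row T5: energy of a magnified copy.
-/

namespace Pool.Agent.Helper37.RT

open MeasureTheory Set Filter Topology
open scoped ENNReal

lemma t5_BB_meas : MeasurableSet BB := measurableSet_Ico.prod measurableSet_Ico

lemma t5_BB_vol : volume BB = 1 := by
  unfold BB
  rw [Measure.volume_eq_prod, Measure.prod_prod]
  simp

lemma t5_BB_real : volume.real BB = 1 := by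
  rw [Measure.real, t5_BB_vol, ENNReal.toReal_one]

lemma t5_intOn {F : ℝ × ℝ → ℝ} (hF : Measurable F) {M : ℝ} (hM : ∀ y, |F y| ≤ M) :
    IntegrableOn F BB := by
  refine Measure.integrableOn_of_bounded (M := M) ?_ hF.aestronglyMeasurable ?_
  · rw [t5_BB_vol]
    exact ENNReal.one_ne_top
  · exact Filter.Eventually.of_forall fun y => by
      rw [Real.norm_eq_abs]
      exact hM y

lemma t5_ff_meas {E : Set (ℝ × ℝ)} (hE : MeasurableSet E) (r : ℝ) (x : ℝ × ℝ) :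
    Measurable (ff E r x) := by
  have h : Measurable (fun y : ℝ × ℝ => r⁻¹ • (y - x)) := by fun_prop
  exact (measurable_const.indicator hE).comp h

lemma t5_ff_abs (E : Set (ℝ × ℝ)) (r : ℝ) (x y : ℝ × ℝ) : |ff E r x y| ≤ 1 := by
  unfold ff
  by_cases h : r⁻¹ • (y - x) ∈ E
  · rw [Set.indicator_of_mem h, abs_one]
  · rw [Set.indicator_of_notMem h, abs_zero]
    exact zero_le_one

theorem energy_one {E : Set (ℝ × ℝ)} (hE : MeasurableSet E) (i : Fin 2) (K n : ℕ) (r : ℝ)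
    (x : ℝ × ℝ) : ener (fun k c => bb E i k c r x) K n ≤ 4 / 3 := by
  have h1 := bessel i K n (t5_ff_meas hE r x) (t5_ff_abs E r x)
  refine h1.trans ?_
  have h2 : ∫ y in BB, ff E r x y ^ 2 ≤ ∫ y in BB, (1 : ℝ) := by
    refine setIntegral_mono (t5_intOn ((t5_ff_meas hE r x).pow_const 2) (M := 1) fun y => ?_)
      (integrableOn_const (by rw [t5_BB_vol]; exact ENNReal.one_ne_top)) fun y => ?_
    · rw [abs_pow]
      exact pow_le_one₀ (abs_nonneg _) (t5_ff_abs E r x y)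
    · have := t5_ff_abs E r x y
      show ff E r x y ^ 2 ≤ 1
      rw [← sq_abs]
      exact pow_le_one₀ (abs_nonneg _) this
  rw [setIntegral_const, t5_BB_real] at h2
  have h3 : ∫ y in BB, ff E r x y ^ 2 ≤ 1 := by simpa using h2
  linarith

/-- lower corner of the dyadic cell of level `K` -/
noncomputable def t5_lc (K : ℕ) (y : ℝ × ℝ) : ℝ × ℝ :=
  ((⌊(2 : ℝ) ^ K * y.1⌋ : ℝ) / 2 ^ K, (⌊(2 : ℝ) ^ K * y.2⌋ : ℝ) / 2 ^ K)

lemma t5_lc_meas (K : ℕ) : Measurable (t5_lc K) := by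
  unfold t5_lc
  have h1 : Measurable (fun y : ℝ × ℝ => (⌊(2 : ℝ) ^ K * y.1⌋ : ℝ)) :=
    measurable_from_top.comp (Int.measurable_floor.comp (measurable_fst.const_mul _))
  have h2 : Measurable (fun y : ℝ × ℝ => (⌊(2 : ℝ) ^ K * y.2⌋ : ℝ)) :=
    measurable_from_top.comp (Int.measurable_floor.comp (measurable_snd.const_mul _))
  exact (h1.div_const _).prodMk (h2.div_const _)

lemma t5_floor1 (K : ℕ) (t : ℝ) : |t - (⌊(2 : ℝ) ^ K * t⌋ : ℝ) / 2 ^ K| ≤ (1 / 2) ^ K := by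
  have hp : (0 : ℝ) < 2 ^ K := by positivity
  have h1 := Int.floor_le ((2 : ℝ) ^ K * t)
  have h2 := Int.lt_floor_add_one ((2 : ℝ) ^ K * t)
  have h3 : t - (⌊(2 : ℝ) ^ K * t⌋ : ℝ) / 2 ^ K = (2 ^ K * t - ⌊(2 : ℝ) ^ K * t⌋) / 2 ^ K := by
    field_simp
  rw [h3, abs_div, abs_of_pos hp, one_div, inv_pow, ← one_div]
  apply div_le_div_of_nonneg_right _ hp.le
  rw [abs_le]
  constructor <;> linarith

lemma t5_lc_dist (K : ℕ) (y : ℝ × ℝ) : ‖y - t5_lc K y‖ ≤ (1 / 2) ^ K := by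
  rw [Prod.norm_def]
  exact max_le (t5_floor1 K y.1) (t5_floor1 K y.2)

/-- the floor is constant on finer cells -/
lemma t5_floor2 {K k : ℕ} (h : K ≤ k) (c : ℕ) {t : ℝ} (h1 : 0 ≤ 2 ^ k * t - c)
    (h2 : 2 ^ k * t - c < 1) : ⌊(2 : ℝ) ^ K * t⌋ = ((c / 2 ^ (k - K) : ℕ) : ℤ) := by
  have hp : (0 : ℝ) < 2 ^ (k - K) := by positivity
  have hk : (2 : ℝ) ^ k = 2 ^ K * 2 ^ (k - K) := by
    rw [← pow_add, Nat.add_sub_cancel' h]
  have h3 : c / 2 ^ (k - K) * 2 ^ (k - K) ≤ c := Nat.div_mul_le_self _ _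
  have h4 : c < (c / 2 ^ (k - K) + 1) * 2 ^ (k - K) := by
    rw [mul_comm]
    exact Nat.lt_mul_div_succ c (by positivity)
  have h4' : c + 1 ≤ (c / 2 ^ (k - K) + 1) * 2 ^ (k - K) := h4
  have h3r : ((c / 2 ^ (k - K) : ℕ) : ℝ) * 2 ^ (k - K) ≤ c := by exact_mod_cast h3
  have h4r : (c : ℝ) + 1 ≤ (((c / 2 ^ (k - K) : ℕ) : ℝ) + 1) * 2 ^ (k - K) := by exact_mod_cast h4'
  rw [Int.floor_eq_iff]
  push_cast
  rw [hk] at h1 h2
  constructor
  · have : ((c / 2 ^ (k - K) : ℕ) : ℝ) * 2 ^ (k - K) ≤ (2 ^ K * t) * 2 ^ (k - K) := by linarith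
    exact le_of_mul_le_mul_right this hp
  · have : (2 ^ K * t) * 2 ^ (k - K) < (((c / 2 ^ (k - K) : ℕ) : ℝ) + 1) * 2 ^ (k - K) := by
      linarith
    exact lt_of_mul_lt_mul_right this hp.le

lemma t5_dpsi_ne {i : Fin 2} {k : ℕ} {c : ℕ × ℕ} {y : ℝ × ℝ} (h : dpsi i k c y ≠ 0) :
    (0 ≤ 2 ^ k * y.1 - c.1 ∧ 2 ^ k * y.1 - c.1 < 1) ∧
      (0 ≤ 2 ^ k * y.2 - c.2 ∧ 2 ^ k * y.2 - c.2 < 1) := by
  have hh : ∀ t : ℝ, haar t ≠ 0 → 0 ≤ t ∧ t < 1 := by
    intro t ht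
    by_contra hc
    apply ht
    apply haar_zero
    rcases lt_or_ge t 0 with h1 | h1
    · exact Or.inl h1
    · right
      by_contra h2
      exact hc ⟨h1, not_le.1 h2⟩
  have ht : ∀ t : ℝ, tent t ≠ 0 → 0 ≤ t ∧ t < 1 := by
    intro t ht
    by_contra hc
    apply ht
    apply tent_zero
    rcases le_or_gt t 0 with h1 | h1
    · exact Or.inl h1
    · right
      by_contra h2
      exact hc ⟨h1.le, not_le.1 h2⟩
  unfold dpsi at h
  split_ifs at h with h0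
  · have h1 := right_ne_zero_of_mul h
    exact ⟨hh _ (left_ne_zero_of_mul h1), ht _ (right_ne_zero_of_mul h1)⟩
  · have h1 := right_ne_zero_of_mul h
    exact ⟨ht _ (left_ne_zero_of_mul h1), hh _ (right_ne_zero_of_mul h1)⟩

lemma t5_dpsi_meas (i : Fin 2) (k : ℕ) (c : ℕ × ℕ) : Measurable (dpsi i k c) := by
  have h1 : Measurable (fun y : ℝ × ℝ => 2 ^ k * y.1 - (c.1 : ℝ)) := by fun_prop
  have h2 : Measurable (fun y : ℝ × ℝ => 2 ^ k * y.2 - (c.2 : ℝ)) := by fun_prop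
  unfold dpsi
  split_ifs
  · exact ((haar_measurable.comp h1).mul (tent_continuous.measurable.comp h2)).const_mul _
  · exact ((tent_continuous.measurable.comp h1).mul (haar_measurable.comp h2)).const_mul _

lemma t5_dpsi_abs (i : Fin 2) (k : ℕ) (c : ℕ × ℕ) (y : ℝ × ℝ) : |dpsi i k c y| ≤ 2 ^ (k + 1) := by
  have h1 : ∀ s t : ℝ, |haar s * tent t| ≤ 1 := by
    intro s t
    rw [abs_mul, abs_of_nonneg (tent_nonneg t)]
    exact mul_le_one₀ (haar_abs s) (tent_nonneg t) (tent_le_one t)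
  have hp : (0 : ℝ) < 2 ^ (k + 1) := by positivity
  unfold dpsi
  split_ifs
  · rw [abs_mul, abs_of_pos hp]
    exact mul_le_of_le_one_right hp.le (h1 _ _)
  · rw [abs_mul, abs_of_pos hp, mul_comm (tent _)]
    exact mul_le_of_le_one_right hp.le (h1 _ _)

lemma t5_dpsi_supp {i : Fin 2} {k : ℕ} {c : ℕ × ℕ} (hc : c ∈ cells k) {y : ℝ × ℝ} (hy : y ∉ BB) :
    dpsi i k c y = 0 := by
  by_contra h
  apply hy
  obtain ⟨⟨h1, h2⟩, h3, h4⟩ := t5_dpsi_ne h
  unfold cells at hc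
  rw [Finset.mem_product, Finset.mem_range, Finset.mem_range] at hc
  have hp : (0 : ℝ) < 2 ^ k := by positivity
  have c1 : (c.1 : ℝ) + 1 ≤ 2 ^ k := by exact_mod_cast hc.1
  have c2 : (c.2 : ℝ) + 1 ≤ 2 ^ k := by exact_mod_cast hc.2
  have d1 : (0 : ℝ) ≤ c.1 := Nat.cast_nonneg _
  have d2 : (0 : ℝ) ≤ c.2 := Nat.cast_nonneg _
  have aux : ∀ t d : ℝ, 0 ≤ d → d + 1 ≤ 2 ^ k → 0 ≤ 2 ^ k * t - d → 2 ^ k * t - d < 1 →
      0 ≤ t ∧ t < 1 := by
    intro t d hd hd1 ht1 ht2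
    constructor
    · by_contra hneg
      push Not at hneg
      have : 2 ^ k * t < 0 := mul_neg_of_pos_of_neg hp hneg
      linarith
    · by_contra hge
      push Not at hge
      have : (2 : ℝ) ^ k ≤ 2 ^ k * t := le_mul_of_one_le_right hp.le hge
      linarith
  exact ⟨aux _ _ d1 c1 h1 h2, aux _ _ d2 c2 h3 h4⟩

lemma t5_dpsi_mul_int {i : Fin 2} {k : ℕ} {c : ℕ × ℕ} (hc : c ∈ cells k) {F : ℝ × ℝ → ℝ}
    (hF : Measurable F) {M : ℝ} (hM : ∀ y, |F y| ≤ M) :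
    Integrable (fun y => dpsi i k c y * F y) := by
  have h1 : IntegrableOn (fun y => dpsi i k c y * F y) BB := by
    refine t5_intOn ((t5_dpsi_meas i k c).mul hF) (M := 2 ^ (k + 1) * M) fun y => ?_
    rw [abs_mul]
    exact mul_le_mul (t5_dpsi_abs i k c y) (hM y) (abs_nonneg _) (by positivity)
  rw [← integrableOn_univ]
  have h2 : (univ : Set (ℝ × ℝ)) = BB ∪ BBᶜ := (Set.union_compl_self BB).symm
  rw [h2]
  refine h1.union ?_
  refine (integrableOn_zero (ε' := ℝ)).congr_fun (fun y hy => ?_) t5_BB_meas.compl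
  rw [t5_dpsi_supp hc hy, zero_mul]

lemma t5_dpsi_int (i : Fin 2) (k : ℕ) (c : ℕ × ℕ) : ∫ y, dpsi i k c y = 0 := by
  have hp : (0 : ℝ) < 2 ^ k := by positivity
  unfold dpsi
  split_ifs
  · rw [integral_const_mul, Measure.volume_eq_prod,
      integral_prod_mul (fun s : ℝ => haar (2 ^ k * s - c.1)) (fun t : ℝ => tent (2 ^ k * t - c.2)),
      haar_int hp]
    ring
  · rw [integral_const_mul, Measure.volume_eq_prod,
      integral_prod_mul (fun s : ℝ => tent (2 ^ k * s - c.1)) (fun t : ℝ => haar (2 ^ k * t - c.2)),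
      haar_int hp]
    ring

lemma t5_scale {φ : ℝ × ℝ → ℝ} {r : ℝ} (hr : 0 < r) (x : ℝ × ℝ) :
    ∫ y, φ (r⁻¹ • (y - x)) = r ^ 2 * ∫ y, φ y := by
  rw [integral_sub_right_eq_self (fun y => φ (r⁻¹ • y)) x, Measure.integral_comp_inv_smul]
  simp [abs_of_pos hr]

theorem energy_small {E : Set (ℝ × ℝ)} (hE : MeasurableSet E) (hb : Bornology.IsBounded E)
    {ν : ℝ} (hν : 0 < ν) : ∃ K₀ : ℕ, ∀ K, K₀ ≤ K → ∀ n : ℕ, ∀ i : Fin 2, ∀ r : ℝ, 1 ≤ r → ∀ x : ℝ × ℝ,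
      ener (fun k c => bb E i k c r x) K n ≤ ν * r ^ 2 := by
  obtain ⟨ν', hν'd⟩ : ∃ ν' : ℝ, ν' = 3 * ν / 16 := ⟨_, rfl⟩
  have hν' : 0 < ν' := by rw [hν'd]; positivity
  have hind : MemLp (E.indicator (fun _ => (1 : ℝ))) (ENNReal.ofReal 2) volume :=
    memLp_indicator_const _ hE _ (Or.inr hb.measure_lt_top.ne)
  obtain ⟨φ, hφs, hφ1, hφc, hφ2⟩ :=
    hind.exists_hasCompactSupport_integral_rpow_sub_le (by norm_num : (0 : ℝ) < 2) hν'
  obtain ⟨Cφ, hCφ⟩ := hφs.exists_bound_of_continuous hφc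
  have huc : UniformContinuous φ := hφs.uniformContinuous_of_continuous hφc
  rw [Metric.uniformContinuous_iff] at huc
  obtain ⟨η, hη, hφη⟩ := huc (√ν') (Real.sqrt_pos.2 hν')
  obtain ⟨K₀, hK₀⟩ := exists_pow_lt_of_lt_one hη (by norm_num : (1 / 2 : ℝ) < 1)
  refine ⟨K₀, fun K hK n i r hr x => ?_⟩
  have hr0 : 0 < r := by linarith
  obtain ⟨G, hGd⟩ : ∃ G : ℝ × ℝ → ℝ, G = fun y => φ (r⁻¹ • (t5_lc K y - x)) := ⟨_, rfl⟩
  have haff : Measurable (fun y : ℝ × ℝ => r⁻¹ • (y - x)) := by fun_prop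
  have hGm : Measurable G := by
    rw [hGd]
    exact hφc.measurable.comp (haff.comp (t5_lc_meas K))
  have hGb : ∀ y, |G y| ≤ Cφ := by
    intro y
    rw [hGd]
    exact hCφ _
  have hFm : Measurable (fun y => ff E r x y - G y) := (t5_ff_meas hE r x).sub hGm
  have hFb : ∀ y, |ff E r x y - G y| ≤ 1 + Cφ := fun y =>
    (abs_sub _ _).trans (add_le_add (t5_ff_abs E r x y) (hGb y))
  -- the coefficients do not see `G`
  have hco : ∀ k ∈ Finset.Ico K (K + n), ∀ c ∈ cells k,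
      bb E i k c r x = ∫ y, dpsi i k c y * (ff E r x y - G y) := by
    intro k hk c hc
    have hKk : K ≤ k := (Finset.mem_Ico.1 hk).1
    have h1 : ∫ y, dpsi i k c y * G y = 0 := by
      have h2 : (fun y => dpsi i k c y * G y) = fun y => dpsi i k c y *
          φ (r⁻¹ • ((((c.1 / 2 ^ (k - K) : ℕ) : ℤ) : ℝ) / 2 ^ K,
            (((c.2 / 2 ^ (k - K) : ℕ) : ℤ) : ℝ) / 2 ^ K) - r⁻¹ • x) := by
        ext y
        by_cases hy : dpsi i k c y = 0
        · rw [hy, zero_mul, zero_mul]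
        · obtain ⟨⟨a1, a2⟩, a3, a4⟩ := t5_dpsi_ne hy
          rw [hGd]
          simp only [t5_lc, t5_floor2 hKk c.1 a1 a2, t5_floor2 hKk c.2 a3 a4, smul_sub]
      rw [h2, integral_mul_const, t5_dpsi_int, zero_mul]
    have h3 : (fun y => dpsi i k c y * (ff E r x y - G y)) =
        fun y => dpsi i k c y * ff E r x y - dpsi i k c y * G y := by
      ext y
      ring
    rw [h3, integral_sub (t5_dpsi_mul_int hc (t5_ff_meas hE r x) (t5_ff_abs E r x))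
      (t5_dpsi_mul_int hc hGm hGb), h1, sub_zero]
    rfl
  have hB := bessel i K n hFm hFb
  have hE1 : ener (fun k c => bb E i k c r x) K n =
      ∑ k ∈ Finset.Ico K (K + n), ∑ c ∈ cells k, (∫ y, dpsi i k c y * (ff E r x y - G y)) ^ 2 := by
    unfold ener
    refine Finset.sum_congr rfl fun k hk => Finset.sum_congr rfl fun c hc => ?_
    show bb E i k c r x ^ 2 = _
    rw [hco k hk c hc]
  rw [hE1]
  refine hB.trans ?_
  -- the two errors
  have hφp : ∀ y, |φ (r⁻¹ • (y - x)) - G y| ≤ √ν' := by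
    intro y
    rw [hGd]
    refine (hφη ?_).le
    rw [dist_eq_norm, ← smul_sub, norm_smul, norm_inv, Real.norm_eq_abs, abs_of_pos hr0]
    have h1 : y - x - (t5_lc K y - x) = y - t5_lc K y := by abel
    rw [h1]
    have h2 := t5_lc_dist K y
    have h3 : r⁻¹ ≤ 1 := inv_le_one_of_one_le₀ hr
    have h4 : ((1 : ℝ) / 2) ^ K ≤ (1 / 2) ^ K₀ := pow_le_pow_of_le_one (by norm_num) (by norm_num) hK
    calc r⁻¹ * ‖y - t5_lc K y‖ ≤ 1 * ‖y - t5_lc K y‖ :=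
          mul_le_mul_of_nonneg_right h3 (norm_nonneg _)
      _ ≤ (1 / 2) ^ K₀ := by linarith
      _ < η := hK₀
  have hφpm : Measurable (fun y => φ (r⁻¹ • (y - x))) := hφc.measurable.comp haff
  have hdm : Measurable (fun y => ff E r x y - φ (r⁻¹ • (y - x))) := (t5_ff_meas hE r x).sub hφpm
  have hdb : ∀ y, |ff E r x y - φ (r⁻¹ • (y - x))| ≤ 1 + Cφ := fun y =>
    (abs_sub _ _).trans (add_le_add (t5_ff_abs E r x y) (hCφ _))
  have hsq : ∀ {a b : ℝ}, |a| ≤ b → |a ^ 2| ≤ b ^ 2 := by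
    intro a b hab
    rw [abs_pow]
    exact pow_le_pow_left₀ (abs_nonneg _) hab 2
  have i1 : IntegrableOn (fun y => (ff E r x y - φ (r⁻¹ • (y - x))) ^ 2) BB :=
    t5_intOn (hdm.pow_const 2) fun y => hsq (hdb y)
  have hI : ∫ y in BB, (ff E r x y - G y) ^ 2 ≤
      ∫ y in BB, (2 * (ff E r x y - φ (r⁻¹ • (y - x))) ^ 2 + 2 * ν') := by
    refine setIntegral_mono (t5_intOn (hFm.pow_const 2) fun y => hsq (hFb y))
      ((i1.const_mul 2).add (integrableOn_const (by rw [t5_BB_vol]; exact ENNReal.one_ne_top)))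
      fun y => ?_
    show (ff E r x y - G y) ^ 2 ≤ 2 * (ff E r x y - φ (r⁻¹ • (y - x))) ^ 2 + 2 * ν'
    have h1 : (φ (r⁻¹ • (y - x)) - G y) ^ 2 ≤ ν' := by
      rw [← sq_abs]
      calc |φ (r⁻¹ • (y - x)) - G y| ^ 2 ≤ √ν' ^ 2 := pow_le_pow_left₀ (abs_nonneg _) (hφp y) 2
        _ = ν' := Real.sq_sqrt hν'.le
    nlinarith [sq_nonneg ((ff E r x y - φ (r⁻¹ • (y - x))) - (φ (r⁻¹ • (y - x)) - G y))]
  rw [integral_add (i1.const_mul 2) (integrableOn_const (by rw [t5_BB_vol]; exact ENNReal.one_ne_top)),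
    integral_const_mul, setIntegral_const, t5_BB_real] at hI
  -- the first error on the whole plane
  have hψ : ∫ y, (E.indicator (fun _ => (1 : ℝ)) y - φ y) ^ 2 ≤ ν' := by
    refine le_trans (le_of_eq ?_) hφ1
    refine integral_congr_ae (Filter.Eventually.of_forall fun y => ?_)
    show (E.indicator (fun _ => (1 : ℝ)) y - φ y) ^ 2 =
      ‖E.indicator (fun _ => (1 : ℝ)) y - φ y‖ ^ (2 : ℝ)
    rw [Real.rpow_two, Real.norm_eq_abs, sq_abs]
  have hsc := t5_scale (φ := fun y => (E.indicator (fun _ => (1 : ℝ)) y - φ y) ^ 2) hr0 x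
  have hint : Integrable (fun y => (E.indicator (fun _ => (1 : ℝ)) y - φ y) ^ 2) := by
    have h1 := (hind.sub hφ2)
    rw [show ENNReal.ofReal 2 = 2 by norm_num] at h1
    exact h1.integrable_sq
  have hint2 : Integrable (fun y => (ff E r x y - φ (r⁻¹ • (y - x))) ^ 2) := by
    have h1 := (hint.comp_smul (inv_ne_zero hr0.ne')).comp_sub_right x
    exact h1
  have hI2 : ∫ y in BB, (ff E r x y - φ (r⁻¹ • (y - x))) ^ 2 ≤ r ^ 2 * ν' := by
    calc ∫ y in BB, (ff E r x y - φ (r⁻¹ • (y - x))) ^ 2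
        ≤ ∫ y, (ff E r x y - φ (r⁻¹ • (y - x))) ^ 2 :=
          setIntegral_le_integral hint2 (Filter.Eventually.of_forall fun y => sq_nonneg _)
      _ = r ^ 2 * ∫ y, (E.indicator (fun _ => (1 : ℝ)) y - φ y) ^ 2 := hsc
      _ ≤ r ^ 2 * ν' := mul_le_mul_of_nonneg_left hψ (by positivity)
  have hr2 : 1 ≤ r ^ 2 := one_le_pow₀ hr
  have hfin : ∫ y in BB, (ff E r x y - G y) ^ 2 ≤ 2 * (r ^ 2 * ν') + 2 * ν' := by
    have : (1 : ℝ) • (2 * ν') = 2 * ν' := one_smul _ _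
    rw [this] at hI
    linarith
  have h5 : ν' ≤ r ^ 2 * ν' := le_mul_of_one_le_left hν'.le hr2
  calc 4 / 3 * ∫ y in BB, (ff E r x y - G y) ^ 2 ≤ 4 / 3 * (4 * (r ^ 2 * ν')) := by
        apply mul_le_mul_of_nonneg_left _ (by norm_num)
        linarith
    _ = ν * r ^ 2 := by rw [hν'd]; ring

end Pool.Agent.Helper37.RT
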